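import Pool.Agent.R499.HT.Stm

/-!
# Project HT, piece UP: subadditivity of a negative definite function along powers
-/

set_option autoImplicit false

namespace Pool.Agent.R567.HT

open scoped ComplexConjugate
open Pool.Agent.R499.HT

section

variable {G : Type} [Group G]

lemma pair_eq (d : G → ℝ) (x : MonoidAlgebra ℝ G) (T : Finset G) (h : x.coeff.support ⊆ T) :
    pair d x = ∑ g ∈ T, x.coeff g * d g := by
  have h1 : pair d x = x.coeff.sum fun g a => a • d g := by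
    simp only [pair, LinearMap.comp_apply]
    rfl
  rw [h1, Finsupp.sum_of_support_subset _ h]
  · rfl
  · intro g _
    simp

lemma pair_mul (d : G → ℝ) (x y : MonoidAlgebra ℝ G) (T : Finset G) (hx : x.coeff.support ⊆ T)
    (hy : y.coeff.support ⊆ T) :
    pair d (x * y) = ∑ g ∈ T, ∑ h ∈ T, x.coeff g * y.coeff h * d (g * h) := by
  rw [MonoidAlgebra.mul_def, map_finsuppSum, Finsupp.sum_of_support_subset _ hx]
  · refine Finset.sum_congr rfl fun g _ => ?_
    rw [map_finsuppSum, Finsupp.sum_of_support_subset _ hy]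
    · refine Finset.sum_congr rfl fun h _ => ?_
      rw [pair_single]
    · intro h _
      simp
  · intro g _
    simp

lemma coeff_eq_pair (x : MonoidAlgebra ℝ G) (m : G) [DecidableEq G] :
    x.coeff m = pair (fun g => if g = m then (1 : ℝ) else 0) x := by
  rw [pair_eq _ _ (insert m x.coeff.support) (Finset.subset_insert _ _)]
  simp

lemma sum_inv (T : Finset G) (hT : ∀ g ∈ T, g⁻¹ ∈ T) (F : G → ℝ) :
    ∑ g ∈ T, F g⁻¹ = ∑ g ∈ T, F g := by
  refine Finset.sum_nbij' (fun g => g⁻¹) (fun g => g⁻¹) hT hT ?_ ?_ ?_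
  · intro g _; simp
  · intro g _; simp
  · intro g _; rfl

lemma supp_inv (μ : MonoidAlgebra ℝ G) (hs : ∀ g, μ.coeff g⁻¹ = μ.coeff g) :
    ∀ g ∈ μ.coeff.support, g⁻¹ ∈ μ.coeff.support := by
  intro g hg
  rw [Finsupp.mem_support_iff] at hg ⊢
  rwa [hs]

lemma symm_sq (μ : MonoidAlgebra ℝ G) (hs : ∀ g, μ.coeff g⁻¹ = μ.coeff g) (m : G) :
    (μ * μ).coeff m⁻¹ = (μ * μ).coeff m := by
  classical
  rw [coeff_eq_pair, coeff_eq_pair, pair_mul _ _ _ _ subset_rfl subset_rfl,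
    pair_mul _ _ _ _ subset_rfl subset_rfl]
  rw [Finset.sum_comm]
  rw [← sum_inv _ (supp_inv μ hs)
    (fun h => ∑ g ∈ μ.coeff.support, μ.coeff g * μ.coeff h * (if g * h = m⁻¹ then (1 : ℝ) else 0))]
  refine Finset.sum_congr rfl fun g _ => ?_
  rw [← sum_inv _ (supp_inv μ hs)
    (fun h => μ.coeff h * μ.coeff g⁻¹ * (if h * g⁻¹ = m⁻¹ then (1 : ℝ) else 0))]
  refine Finset.sum_congr rfl fun h _ => ?_
  rw [hs, hs]
  have : (h⁻¹ * g⁻¹ = m⁻¹) ↔ (g * h = m) := by
    rw [← mul_inv_rev, inv_inj]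
  simp only [this]
  ring

lemma mass_sq (μ : MonoidAlgebra ℝ G) (h1 : pair (fun _ => (1 : ℝ)) μ = 1) :
    pair (fun _ => (1 : ℝ)) (μ * μ) = 1 := by
  rw [pair_mul _ _ _ _ subset_rfl subset_rfl]
  rw [pair_eq _ _ _ subset_rfl] at h1
  simp only [mul_one] at h1 ⊢
  rw [← Finset.sum_mul_sum, h1, one_mul]

lemma nd_real (d : G → ℝ) (hd : ND d) (T : Finset G) (f : G → ℝ) (hf : ∑ g ∈ T, f g = 0) :
    ∑ g ∈ T, ∑ h ∈ T, f g * f h * d (g⁻¹ * h) ≤ 0 := by
  have key := hd.neg T.card (fun i => (T.equivFin.symm i : G))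
    (fun i => ((f (T.equivFin.symm i : G) : ℝ) : ℂ)) (by
      have : ∑ i, f (T.equivFin.symm i : G) = 0 := by
        rw [Equiv.sum_comp T.equivFin.symm (fun x : T => f (x : G)), Finset.sum_coe_sort T f, hf]
      exact_mod_cast this)
  have e1 : (∑ i, ∑ j, conj (((f (T.equivFin.symm i : G) : ℝ) : ℂ)) *
      ((f (T.equivFin.symm j : G) : ℝ) : ℂ) *
      ((d ((T.equivFin.symm i : G)⁻¹ * (T.equivFin.symm j : G)) : ℝ) : ℂ)) =
      ((∑ g ∈ T, ∑ h ∈ T, f g * f h * d (g⁻¹ * h) : ℝ) : ℂ) := by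
    have e2 : ∑ g ∈ T, ∑ h ∈ T, f g * f h * d (g⁻¹ * h) =
        ∑ i, ∑ j, f (T.equivFin.symm i : G) * f (T.equivFin.symm j : G) *
          d ((T.equivFin.symm i : G)⁻¹ * (T.equivFin.symm j : G)) := by
      rw [Equiv.sum_comp T.equivFin.symm (fun x : T => ∑ j, f (x : G) *
        f (T.equivFin.symm j : G) * d ((x : G)⁻¹ * (T.equivFin.symm j : G)))]
      rw [← Finset.sum_coe_sort T (fun g => ∑ h ∈ T, f g * f h * d (g⁻¹ * h))]
      refine Finset.sum_congr rfl fun g _ => ?_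
      rw [Equiv.sum_comp T.equivFin.symm (fun x : T => f (g : G) * f (x : G) *
        d ((g : G)⁻¹ * (x : G)))]
      rw [← Finset.sum_coe_sort T (fun h => f g * f h * d ((g : G)⁻¹ * h))]
    rw [e2]
    push_cast
    simp
  rw [e1] at key
  simpa using key

lemma step (d : G → ℝ) (hd : ND d) (μ : MonoidAlgebra ℝ G)
    (hs : ∀ g, μ.coeff g⁻¹ = μ.coeff g) (h1 : pair (fun _ => (1 : ℝ)) μ = 1) :
    pair d (μ * μ) ≤ 2 * pair d μ := by
  classical
  set T : Finset G := insert 1 μ.coeff.support with hT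
  have hsub : μ.coeff.support ⊆ T := Finset.subset_insert _ _
  have hinv : ∀ g ∈ T, g⁻¹ ∈ T := by
    intro g hg
    rcases Finset.mem_insert.1 hg with rfl | hg
    · rw [inv_one]; exact Finset.mem_insert_self _ _
    · exact hsub (supp_inv μ hs g hg)
  have h1T : (1 : G) ∈ T := Finset.mem_insert_self _ _
  rw [pair_eq _ _ T hsub] at h1
  simp only [mul_one] at h1
  have key := nd_real d hd T (fun g => μ.coeff g - if g = 1 then 1 else 0) (by
    rw [Finset.sum_sub_distrib, h1, Finset.sum_ite_eq' T (1 : G) (fun _ => (1 : ℝ)), if_pos h1T,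
      sub_self])
  have hexp : ∑ g ∈ T, ∑ h ∈ T, (μ.coeff g - if g = 1 then 1 else 0) *
      (μ.coeff h - if h = 1 then 1 else 0) * d (g⁻¹ * h) =
      (∑ g ∈ T, ∑ h ∈ T, μ.coeff g * μ.coeff h * d (g⁻¹ * h)) -
      (∑ g ∈ T, μ.coeff g * d g⁻¹) - (∑ h ∈ T, μ.coeff h * d h) + d 1 := by
    have e3 : ∀ g h : G, (μ.coeff g - if g = 1 then 1 else 0) *
        (μ.coeff h - if h = 1 then 1 else 0) * d (g⁻¹ * h) =
        μ.coeff g * μ.coeff h * d (g⁻¹ * h) - (if h = 1 then μ.coeff g * d (g⁻¹ * h) else 0) -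
        (if g = 1 then μ.coeff h * d (g⁻¹ * h) else 0) +
        (if g = 1 then (if h = 1 then d (g⁻¹ * h) else 0) else 0) := by
      intro g h
      split_ifs <;> ring
    simp only [e3, Finset.sum_add_distrib, Finset.sum_sub_distrib]
    congr 1
    · congr 1
      · congr 1
        refine Finset.sum_congr rfl fun g _ => ?_
        rw [Finset.sum_ite_eq' T (1 : G), if_pos h1T, mul_one]
      · rw [Finset.sum_comm]
        refine Finset.sum_congr rfl fun g _ => ?_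
        rw [Finset.sum_ite_eq' T (1 : G), if_pos h1T, inv_one, one_mul]
    · rw [Finset.sum_comm]
      have : ∀ y : G, ∑ x ∈ T, (if x = 1 then (if y = 1 then d (x⁻¹ * y) else 0) else 0) =
          if y = 1 then d y else 0 := by
        intro y
        rw [Finset.sum_ite_eq' T (1 : G), if_pos h1T, inv_one, one_mul]
      simp only [this]
      rw [Finset.sum_ite_eq' T (1 : G), if_pos h1T]
  rw [hexp, hd.one] at key
  have a1 : ∑ g ∈ T, μ.coeff g * d g⁻¹ = pair d μ := by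
    rw [pair_eq _ _ T hsub]
    simp only [hd.symm]
  have a2 : ∑ h ∈ T, μ.coeff h * d h = pair d μ := by
    rw [pair_eq _ _ T hsub]
  have a3 : ∑ g ∈ T, ∑ h ∈ T, μ.coeff g * μ.coeff h * d (g⁻¹ * h) = pair d (μ * μ) := by
    rw [pair_mul _ _ _ T hsub hsub]
    rw [← sum_inv T hinv (fun g => ∑ h ∈ T, μ.coeff g * μ.coeff h * d (g * h))]
    refine Finset.sum_congr rfl fun g _ => ?_
    simp only [hs]
  rw [a1, a2, a3] at key
  linarith

end

theorem up : S_UP := by
  intro G _ d hd μ hs h1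
  have main : ∀ k : ℕ, (∀ g, (μ ^ (2 ^ k)).coeff g⁻¹ = (μ ^ (2 ^ k)).coeff g) ∧
      pair (fun _ => (1 : ℝ)) (μ ^ (2 ^ k)) = 1 ∧ pair d (μ ^ (2 ^ k)) ≤ 2 ^ k * pair d μ := by
    intro k
    induction k with
    | zero => simpa using ⟨hs, h1⟩
    | succ k ih =>
      obtain ⟨i1, i2, i3⟩ := ih
      have e : μ ^ (2 ^ (k + 1)) = μ ^ (2 ^ k) * μ ^ (2 ^ k) := by
        rw [pow_succ, pow_mul, sq]
      rw [e]
      refine ⟨symm_sq _ i1, mass_sq _ i2, ?_⟩
      have := step d hd _ i1 i2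
      rw [pow_succ]
      linarith
  exact fun k => (main k).2.2

end Pool.Agent.R567.HT
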